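import Pool.Agent.H.MP_1e851b_pr.C

/-! Normalized exit-time moments of boxes are maximized exactly by cubes. -/

namespace Pool.Agent.Results.MP_1e851b_pr.Holds

open MeasureTheory ProbabilityTheory
open scoped ENNReal NNReal

/-- The open box `R_a = {x : |x_k| < a_k}`. -/
def box {d : ℕ} (a : Fin d → ℝ) : Set (Fin d → ℝ) := {x | ∀ k, |x k| < a k}

/-- The exit time `inf {t ≥ 0 : B_t ∉ D}` (equal to `∞` if the path never leaves `D`), for the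
process with coordinates `B k`. -/
noncomputable def exitTime {Ω : Type} {d : ℕ} (B : Fin d → ℝ≥0 → Ω → ℝ) (D : Set (Fin d → ℝ))
    (ω : Ω) : ℝ≥0∞ :=
  ⨅ t : ℝ≥0, ⨅ _ : (fun k => B k t ω) ∉ D, (t : ℝ≥0∞)

/-- The first Dirichlet eigenvalue of the box, `(π²/4) ∑ a_k^{-2}`. -/
noncomputable def lam {d : ℕ} (a : Fin d → ℝ) : ℝ := Real.pi ^ 2 / 4 * ∑ k, (a k ^ 2)⁻¹

/-- `λ₁(R_a)^p E_0[τ^p]`. -/
noncomputable def G {Ω : Type} [MeasurableSpace Ω] (P : Measure Ω) {d : ℕ}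
    (B : Fin d → ℝ≥0 → Ω → ℝ) (p : ℝ) (a : Fin d → ℝ) : ℝ≥0∞ :=
  ENNReal.ofReal (lam a ^ p) * ∫⁻ ω, exitTime B (box a) ω ^ p ∂P

theorem result (d : ℕ) (hd : 1 ≤ d) (p : ℝ) (hp : 0 < p) (a : Fin d → ℝ) (ha : ∀ k, 0 < a k)
    (Ω : Type) [MeasurableSpace Ω] (P : Measure Ω) (B : Fin d → ℝ≥0 → Ω → ℝ)
    (hB : ∀ k, IsBrownianReal (B k) P) (hI : iIndepFun (fun k ω (t : ℝ≥0) => B k t ω) P) :
    G P B p (fun _ => 1) ≠ ∞ ∧ G P B p a ≤ G P B p (fun _ => 1) ∧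
      (G P B p a = G P B p (fun _ => 1) → ∀ k l, a k = a l) := by
  have hd' : (0 : ℝ) < d := by exact_mod_cast hd
  obtain ⟨β, hβ⟩ : ∃ β : ℝ, β = (∑ k, (a k ^ 2)⁻¹) / d := ⟨_, rfl⟩
  have hβ0 : 0 ≤ β := by
    rw [hβ]
    exact div_nonneg (Finset.sum_nonneg fun k _ => by positivity) hd'.le
  have hβ1 : d * β = ∑ k, (a k ^ 2)⁻¹ := by rw [hβ]; field_simp
  obtain ⟨h1, h2, h3⟩ := Pool.Agent.H.MP_1e851b_pr.main hd hB hI ha hp hβ1
  have hl : 0 < lam (d := d) fun _ => 1 := by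
    have := Real.pi_pos
    simp only [lam, one_pow, inv_one, Finset.sum_const, Finset.card_univ, Fintype.card_fin,
      nsmul_eq_mul, mul_one]
    positivity
  have e : lam a = lam (d := d) (fun _ => 1) * β := by
    simp only [lam, ← hβ1, one_pow, inv_one, Finset.sum_const, Finset.card_univ, Fintype.card_fin,
      nsmul_eq_mul, mul_one]
    ring
  have e1 : G P B p a = ENNReal.ofReal (lam (d := d) (fun _ => 1) ^ p) * (ENNReal.ofReal (β ^ p) *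
      ∫⁻ ω, Pool.Agent.H.MP_1e851b_pr.tau B a ω ^ p ∂P) := by
    rw [G, e, Real.mul_rpow hl.le hβ0, ENNReal.ofReal_mul (by positivity), mul_assoc]
    rfl
  have e2 : G P B p (fun _ => 1) = ENNReal.ofReal (lam (d := d) (fun _ => 1) ^ p) *
      ∫⁻ ω, Pool.Agent.H.MP_1e851b_pr.tau B (fun _ => 1) ω ^ p ∂P := rfl
  rw [e1, e2]
  refine ⟨ENNReal.mul_ne_top ENNReal.ofReal_ne_top h1, mul_le_mul_right h2 _, fun h => h3 ?_⟩
  exact (ENNReal.mul_right_inj (by simpa using Real.rpow_pos_of_pos hl p)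
    ENNReal.ofReal_ne_top).1 h

end Pool.Agent.Results.MP_1e851b_pr.Holds
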